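import Mathlib

set_option autoImplicit false

universe u v w

open scoped commutatorElement

namespace Pool.Agent.Results.MP_4ce577_al.IntegralVariety

/-- `IsInVar G K`: the group `K` belongs to the variety `Var(G)` generated by `G`, that is, `K`
satisfies every law (word in countably many letters) which holds in `G`. -/
def IsInVar (G : Type u) [Group G] (K : Type v) [Group K] : Prop :=
  ∀ r : FreeGroup ℕ, (∀ φ : FreeGroup ℕ →* G, φ r = 1) → ∀ ψ : FreeGroup ℕ →* K, ψ r = 1

/-- `H` is an integral of `G`: the derived subgroup of `H` is isomorphic to `G`. -/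
def IsIntegral (H : Type v) [Group H] (G : Type u) [Group G] : Prop :=
  Nonempty (commutator H ≃* G)

/-! ### The affine group of a field -/

/-- The group of affine maps `x ↦ a x + b` of a field. -/
@[ext] structure Aff (F : Type u) [Field F] where
  a : Fˣ
  b : F

namespace Aff

variable {F : Type u} [Field F]

instance : Mul (Aff F) := ⟨fun x y => ⟨x.a * y.a, x.b + x.a * y.b⟩⟩
instance : One (Aff F) := ⟨⟨1, 0⟩⟩
instance : Inv (Aff F) := ⟨fun x => ⟨x.a⁻¹, -((x.a⁻¹ : Fˣ) : F) * x.b⟩⟩

@[simp] lemma mul_a (x y : Aff F) : (x * y).a = x.a * y.a := rfl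
@[simp] lemma mul_b (x y : Aff F) : (x * y).b = x.b + x.a * y.b := rfl
@[simp] lemma one_a : (1 : Aff F).a = 1 := rfl
@[simp] lemma one_b : (1 : Aff F).b = 0 := rfl
@[simp] lemma inv_a (x : Aff F) : (x⁻¹).a = x.a⁻¹ := rfl
@[simp] lemma inv_b (x : Aff F) : (x⁻¹).b = -((x.a⁻¹ : Fˣ) : F) * x.b := rfl

instance : Group (Aff F) :=
  Group.ofLeftAxioms
    (by intro x y z; ext <;> simp [mul_assoc, mul_add, add_assoc])
    (by intro x; ext <;> simp)
    (by intro x; ext <;> simp)

/-- The linear part. -/
def lin : Aff F →* Fˣ where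
  toFun := Aff.a
  map_one' := rfl
  map_mul' _ _ := rfl

lemma pow_zero_b (z : Fˣ) (n : ℕ) : ((⟨z, 0⟩ : Aff F) ^ n) = ⟨z ^ n, 0⟩ := by
  induction n with
  | zero => rw [pow_zero, pow_zero]; rfl
  | succ n ih => rw [pow_succ, ih]; ext <;> simp [pow_succ]

lemma comm_formula (z : Fˣ) (b : F) :
    ⁅(⟨1, b⟩ : Aff F), (⟨z, 0⟩ : Aff F)⁆ = ⟨1, b - z * b⟩ := by
  rw [commutatorElement_def]
  ext <;> simp [sub_eq_add_neg]

lemma commutator_a (x : Aff F) (hx : x ∈ commutator (Aff F)) : x.a = 1 := by
  have h : commutator (Aff F) ≤ (lin : Aff F →* Fˣ).ker := Abelianization.commutator_subset_ker _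
  exact h hx

/-- The translation part, as a homomorphism on the derived subgroup. -/
def trans : commutator (Aff F) →* Multiplicative F where
  toFun x := Multiplicative.ofAdd x.1.b
  map_one' := rfl
  map_mul' x y := by
    have h := commutator_a x.1 x.2
    simp [h]

lemma trans_injective : Function.Injective (trans (F := F)) := by
  intro x y h
  have h1 : x.1.b = y.1.b := h
  apply Subtype.ext
  apply Aff.ext
  · rw [commutator_a _ x.2, commutator_a _ y.2]
  · exact h1

end Aff

/-- The cyclic group of order `p` inside a group. -/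
lemma exists_embedding {G : Type u} [Group G] {p : ℕ} [Fact p.Prime] (g : G) (hg : orderOf g = p) :
    ∃ e : Multiplicative (ZMod p) →* G, Function.Injective e := by
  have hgp : g ^ p = 1 := by rw [← hg]; exact pow_orderOf_eq_one g
  let e0 : ZMod p →+ Additive G :=
    ZMod.lift p ⟨zmultiplesHom (Additive G) (Additive.ofMul g), by
      simp only [zmultiplesHom_apply, natCast_zsmul]
      exact hgp⟩
  have he0 : Function.Injective e0 := by
    rw [ZMod.lift_injective]
    intro m hm
    have hm' : g ^ m = 1 := hm
    have := orderOf_dvd_iff_zpow_eq_one.2 hm'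
    rw [hg] at this
    exact (ZMod.intCast_zmod_eq_zero_iff_dvd m p).2 this
  exact ⟨AddMonoidHom.toMultiplicativeLeft e0, fun x y h => he0 h⟩

/-- If `g` in `G` has order `p` and `F` is a field of characteristic `p`, then the derived subgroup
of the affine group of `F` lies in `Var(G)`. -/
lemma aff_in_var {G : Type u} [Group G] {p : ℕ} [Fact p.Prime] (g : G) (hg : orderOf g = p)
    (F : Type w) [Field F] [Algebra (ZMod p) F] : IsInVar G (commutator (Aff F)) := by
  intro r hr ψ
  apply Aff.trans_injective
  rw [map_one]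
  by_contra hne
  set x : F := Multiplicative.toAdd (Aff.trans (ψ r)) with hx
  have hx0 : x ≠ 0 := fun h => hne h
  obtain ⟨f, hf⟩ : ∃ f : Module.Dual (ZMod p) F, f x ≠ 0 := by
    by_contra hcon
    push Not at hcon
    exact hx0 ((Module.forall_dual_apply_eq_zero_iff (ZMod p) x).1 hcon)
  obtain ⟨e, he⟩ := exists_embedding g hg
  have h1 := hr (e.comp ((AddMonoidHom.toMultiplicative f.toAddMonoidHom).comp
    (Aff.trans.comp ψ)))
  have h2 : (AddMonoidHom.toMultiplicative f.toAddMonoidHom) (Aff.trans (ψ r)) = 1 :=
    he (by rw [map_one]; exact h1)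
  exact hf h2

/-- In a group `H` with finite derived subgroup, some positive power of every element centralizes
the derived subgroup. -/
lemma pow_centralizes {H : Type v} [Group H] [Finite (commutator H)] :
    ∃ n : ℕ, 0 < n ∧ ∀ x y z : H, ⁅⁅x, y⁆, z ^ n⁆ = 1 := by
  refine ⟨Nat.card (MulAut (commutator H)), Nat.card_pos, fun x y z => ?_⟩
  have hz : MulAut.conjNormal (H := commutator H) (z ^ Nat.card (MulAut (commutator H))) = 1 := by
    rw [map_pow, pow_card_eq_one']
  have hc : ⁅x, y⁆ ∈ commutator H := Subgroup.commutator_mem_commutator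
    (Subgroup.mem_top x) (Subgroup.mem_top y)
  have h1 := MulAut.conjNormal_apply (H := commutator H)
    (z ^ Nat.card (MulAut (commutator H))) ⟨⁅x, y⁆, hc⟩
  rw [hz] at h1
  have h2 : ⁅x, y⁆ = z ^ Nat.card (MulAut (commutator H)) * ⁅x, y⁆ *
    (z ^ Nat.card (MulAut (commutator H)))⁻¹ := h1
  rw [commutatorElement_eq_one_iff_mul_comm]
  exact (eq_mul_inv_iff_mul_eq.1 h2)

/-- For a nontrivial finite group, no integral generates the variety of integrals. -/
lemma nontrivial_case {G : Type u} [Group G] [Finite G] [Nontrivial G] {H : Type v} [Group H]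
    (hH : IsIntegral H G) :
    ∃ (K : Type w) (_ : Group K), IsInVar G (commutator K) ∧ ¬ IsInVar H K := by
  obtain ⟨iso⟩ := hH
  have : Finite (commutator H) := Finite.of_equiv G iso.symm.toEquiv
  obtain ⟨n, hn, hlaw⟩ := pow_centralizes (H := H)
  -- a prime `p` and an element of order `p`
  have hcard : 1 < Nat.card G := Finite.one_lt_card
  obtain ⟨p, hp, hpd⟩ := Nat.exists_prime_and_dvd hcard.ne'
  have : Fact p.Prime := ⟨hp⟩
  obtain ⟨g, hg⟩ := exists_prime_orderOf_dvd_card' p hpd
  -- a finite field of characteristic `p` with more than `n+1` elements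
  let F := ULift.{w} (GaloisField p (n + 1))
  have hFfin : Finite F := inferInstanceAs (Finite (ULift.{w} (GaloisField p (n + 1))))
  have : Fintype F := Fintype.ofFinite F
  refine ⟨Aff F, inferInstance, aff_in_var g hg F, fun hin => ?_⟩
  -- the law
  let r : FreeGroup ℕ := ⁅⁅FreeGroup.of 0, FreeGroup.of 1⁆, (FreeGroup.of 2) ^ n⁆
  have hr : ∀ φ : FreeGroup ℕ →* H, φ r = 1 := by
    intro φ
    simp only [r, map_commutatorElement, map_pow]
    exact hlaw _ _ _
  have hr2 := hin r hr
  have hlaw2 : ∀ x y z : Aff F, ⁅⁅x, y⁆, z ^ n⁆ = 1 := by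
    intro x y z
    have := hr2 (FreeGroup.lift fun i => if i = 0 then x else if i = 1 then y else z)
    simpa [r, map_commutatorElement] using this
  -- choose a generator of the multiplicative group of `F`
  obtain ⟨z, hz⟩ := IsCyclic.exists_generator (α := Fˣ)
  have hzord : orderOf z = Nat.card Fˣ := orderOf_eq_card_of_forall_mem_zpowers hz
  have hFcard : Nat.card F = p ^ (n + 1) := by
    rw [show Nat.card F = Nat.card (GaloisField p (n + 1)) from Nat.card_congr Equiv.ulift]
    exact GaloisField.card p (n + 1) (Nat.succ_ne_zero n)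
  have hbig : n < Nat.card Fˣ := by
    rw [Nat.card_units, hFcard]
    have h1 : n + 1 < p ^ (n + 1) := Nat.lt_pow_self hp.one_lt
    omega
  have hzn : z ^ n ≠ 1 := by
    intro h
    have := Nat.le_of_dvd hn (orderOf_dvd_of_pow_eq_one h)
    omega
  have hz1 : z ≠ 1 := by
    rintro rfl
    exact hzn (one_pow n)
  have h := hlaw2 ⟨1, 1⟩ ⟨z, 0⟩ ⟨z, 0⟩
  rw [Aff.pow_zero_b, Aff.comm_formula, Aff.comm_formula] at h
  have hb : (1 - (z : F) * 1) - ((z ^ n : Fˣ) : F) * (1 - (z : F) * 1) = 0 := congrArg Aff.b h
  have hzF : (1 : F) - z ≠ 0 := fun hh => hz1 (Units.ext (sub_eq_zero.1 hh).symm)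
  have hznF : (1 : F) - ((z ^ n : Fˣ) : F) ≠ 0 := fun hh => hzn (Units.ext (sub_eq_zero.1 hh).symm)
  have hb2 : ((1 : F) - ((z ^ n : Fˣ) : F)) * (1 - (z : F)) = 0 := by
    rw [mul_one] at hb
    rw [← hb]; ring
  exact (mul_ne_zero hznF hzF) hb2

/-- A word which is a law of the infinite cyclic group is a law of every commutative group. -/
lemma abelian_law (r : FreeGroup ℕ) (hr : ∀ φ : FreeGroup ℕ →* Multiplicative ℤ, φ r = 1)
    {K : Type w} [CommGroup K] (ψ : FreeGroup ℕ →* K) : ψ r = 1 := by
  have h0 : Additive.ofMul (Abelianization.of r) = (0 : FreeAbelianGroup ℕ) := by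
    apply (FreeAbelianGroup.equivFinsupp ℕ).injective
    rw [map_zero]
    ext i
    have := hr ((AddMonoidHom.toMultiplicativeLeft
      ((Finsupp.applyAddHom i).comp (FreeAbelianGroup.equivFinsupp ℕ).toAddMonoidHom)).comp
        Abelianization.of)
    exact this
  have h1 : Abelianization.of r = 1 := h0
  have h2 : ψ r = Abelianization.lift ψ (Abelianization.of r) := by simp
  rw [h2, h1, map_one]

/-- For the trivial group, the infinite cyclic group is an integral generating the variety of
integrals (all abelian groups). -/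
lemma trivial_case {G : Type u} [Group G] [Subsingleton G] :
    ∃ (H : Type v) (_ : Group H), IsIntegral H G ∧
      ∀ (K : Type w) [Group K], IsInVar H K ↔ IsInVar G (commutator K) := by
  refine ⟨ULift.{v} (Multiplicative ℤ), inferInstance, ?_, ?_⟩
  · have hsub : Subsingleton (commutator (ULift.{v} (Multiplicative ℤ))) := by
      have hbot : commutator (ULift.{v} (Multiplicative ℤ)) = ⊥ := by
        rw [_root_.commutator_eq_bot_iff_center_eq_top]
        exact CommGroup.center_eq_top
      rw [hbot]
      infer_instance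
    exact ⟨{ toFun := fun _ => 1, invFun := fun _ => 1, left_inv := fun _ => Subsingleton.elim _ _,
             right_inv := fun _ => Subsingleton.elim _ _,
             map_mul' := fun _ _ => Subsingleton.elim _ _ }⟩
  · intro K _
    constructor
    · intro h r _ ψ
      -- `K` is commutative
      have hcomm : ∀ x y : K, ⁅x, y⁆ = 1 := by
        intro x y
        have h1 := h ⁅FreeGroup.of 0, FreeGroup.of 1⁆ (by
          intro φ
          rw [map_commutatorElement, commutatorElement_eq_one_iff_mul_comm]
          exact mul_comm _ _) (FreeGroup.lift fun i => if i = 0 then x else y)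
        simpa [map_commutatorElement] using h1
      have hbot : commutator K = ⊥ := by
        rw [eq_bot_iff, commutator_def, Subgroup.commutator_le]
        intro x _ y _
        rw [hcomm x y]
        exact Subgroup.mem_bot.2 rfl
      have hsub : Subsingleton (commutator K) := by rw [hbot]; infer_instance
      exact Subsingleton.elim _ _
    · intro h r hr ψ
      have htriv : ∀ x : commutator K, x = 1 := by
        intro x
        have := h (FreeGroup.of 0) (fun φ => Subsingleton.elim _ _)
          (FreeGroup.lift fun _ => x)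
        simpa using this
      have hcomm : ∀ x y : K, x * y = y * x := by
        intro x y
        have hc : ⁅x, y⁆ ∈ commutator K := Subgroup.commutator_mem_commutator
          (Subgroup.mem_top x) (Subgroup.mem_top y)
        have h1 := congrArg Subtype.val (htriv ⟨_, hc⟩)
        exact commutatorElement_eq_one_iff_mul_comm.1 h1
      let _ : CommGroup K := { (inferInstance : Group K) with mul_comm := hcomm }
      refine abelian_law r (fun φ => ?_) ψ
      have := hr ((MulEquiv.ulift.symm : Multiplicative ℤ ≃* ULift.{v} (Multiplicative ℤ)).toMonoidHom.comp φ)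
      exact (MulEquiv.ulift.symm : Multiplicative ℤ ≃* ULift.{v} (Multiplicative ℤ)).injective
        (by rw [map_one]; exact this)

/-- There is a nontrivial finite group having an integral: the derived subgroup of the symmetric
group on three letters. -/
lemma exists_integrable :
    ∃ (G : Type) (_ : Group G) (H : Type) (_ : Group H), Finite G ∧ Nontrivial G ∧
      IsIntegral H G := by
  refine ⟨commutator (Equiv.Perm (Fin 3)), inferInstance, Equiv.Perm (Fin 3), inferInstance,
    inferInstance, ?_, ⟨MulEquiv.refl _⟩⟩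
  rw [Subgroup.nontrivial_iff_exists_ne_one]
  refine ⟨⁅Equiv.swap 0 1, Equiv.swap 1 2⁆, Subgroup.commutator_mem_commutator
    (Subgroup.mem_top _) (Subgroup.mem_top _), ?_⟩
  rw [Ne, commutatorElement_eq_one_iff_mul_comm]
  decide

/-- **Answer to Q1 (negative).**  There are nontrivial finite integrable groups, and for a finite
group `G` the variety `W` of all groups `K` with `K' ∈ Var(G)` is generated by some integral `H`
of `G` if and only if `G` is the trivial group. -/
theorem result :
    (∃ (G : Type) (_ : Group G) (H : Type) (_ : Group H), Finite G ∧ Nontrivial G ∧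
      IsIntegral H G) ∧
    ∀ (G : Type u) [Group G] [Finite G],
      (∃ (H : Type v) (_ : Group H), IsIntegral H G ∧
        ∀ (K : Type w) [Group K], IsInVar H K ↔ IsInVar G (commutator K)) ↔ Subsingleton G := by
  refine ⟨exists_integrable, fun G _ _ => ⟨?_, ?_⟩⟩
  · rintro ⟨H, _, hH, hK⟩
    by_contra hns
    rw [not_subsingleton_iff_nontrivial] at hns
    obtain ⟨K, _, h1, h2⟩ := nontrivial_case.{u, v, w} hH
    exact h2 ((hK K).2 h1)
  · intro hs
    exact trivial_case

end Pool.Agent.Results.MP_4ce577_al.IntegralVariety
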